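import Pool.Agent.K3h83.FI.Ind

set_option autoImplicit false
set_option linter.unusedSectionVars false
set_option linter.unusedVariables false

/-!
# The ball of radius five
-/

namespace Pool.Agent.K3h83.FI

open Finset Pool.Agent.TH676.Z Pool.Agent.Y335.FL Pool.Agent.Y358.IN Pool.Agent.H173FL

theorem finite_address : Finite Address := by
  haveI : Finite {l : List Bool // l.length ≤ 5} := (List.finite_length_le Bool 5).to_subtype
  refine Finite.of_injective
    (fun t : Address => ((t.1.1, ⟨t.1.2, t.2⟩) : Bool × {l : List Bool // l.length ≤ 5})) ?_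
  rintro ⟨⟨b, w⟩, h⟩ ⟨⟨b', w'⟩, h'⟩ he
  simp only [Prod.mk.injEq, Subtype.mk.injEq] at he
  simp [he.1, he.2]

/-- the tree -/
def TG : SimpleGraph Address := SimpleGraph.fromRel TreeAdj

theorem treeAdj_ne {t t' : Address} (h : TreeAdj t t') : t ≠ t' := by
  rintro rfl
  rcases h with ⟨h1, h2⟩ | ⟨b, c, w, h1, h2⟩
  · rw [h1] at h2
    simp at h2
  · rw [h1] at h2
    have h3 := congrArg (fun t : Bool × List Bool => t.2.length) h2
    simp at h3

theorem root_walk (b : Bool) (w : List Bool) : ∀ hw : w.length ≤ 5,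
    ∃ p : TG.Walk ⟨(b, w), hw⟩ ⟨(b, []), by simp⟩, p.length = w.length := by
  induction w with
  | nil => intro hw; exact ⟨SimpleGraph.Walk.nil, rfl⟩
  | cons c w ih =>
    intro hw
    have hw' : w.length ≤ 5 := by
      simp only [List.length_cons] at hw
      omega
    obtain ⟨p, hp⟩ := ih hw'
    have hadj : TG.Adj ⟨(b, c :: w), hw⟩ ⟨(b, w), hw'⟩ := by
      have h : TreeAdj ⟨(b, w), hw'⟩ ⟨(b, c :: w), hw⟩ := Or.inr ⟨b, c, w, rfl, rfl⟩
      exact (SimpleGraph.fromRel_adj _ _ _).2 ⟨(treeAdj_ne h).symm, Or.inr h⟩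
    exact ⟨SimpleGraph.Walk.cons hadj p, by rw [SimpleGraph.Walk.length_cons, hp, List.length_cons]⟩

/-- the vertices at distance at most five from the root `(false, [])` -/
def InBall (t : Address) : Prop := t.1.1 = true → t.1.2.length ≤ 4

theorem ball_walk {t t' : Address} (ht : InBall t) (ht' : InBall t') :
    ∃ p : TG.Walk t t', p.length ≤ 10 := by
  obtain ⟨⟨b, w⟩, hw⟩ := t
  obtain ⟨⟨b', w'⟩, hw'⟩ := t'
  obtain ⟨p, hp⟩ := root_walk b w hw
  obtain ⟨q, hq⟩ := root_walk b' w' hw'
  have hw0 : w.length ≤ 5 := hw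
  have hw0' : w'.length ≤ 5 := hw'
  have hroot : TG.Adj ⟨(false, []), by simp⟩ ⟨(true, []), by simp⟩ := by
    have h : TreeAdj ⟨(false, []), by simp⟩ ⟨(true, []), by simp⟩ := Or.inl ⟨rfl, rfl⟩
    exact (SimpleGraph.fromRel_adj _ _ _).2 ⟨treeAdj_ne h, Or.inl h⟩
  cases b <;> cases b'
  · exact ⟨p.append q.reverse, by
      rw [SimpleGraph.Walk.length_append, SimpleGraph.Walk.length_reverse, hp, hq]; omega⟩
  · have h4 : w'.length ≤ 4 := ht' rfl
    exact ⟨p.append (SimpleGraph.Walk.cons hroot q.reverse), by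
      rw [SimpleGraph.Walk.length_append, SimpleGraph.Walk.length_cons,
        SimpleGraph.Walk.length_reverse, hp, hq]; omega⟩
  · have h4 : w.length ≤ 4 := ht rfl
    exact ⟨p.append (SimpleGraph.Walk.cons hroot.symm q.reverse), by
      rw [SimpleGraph.Walk.length_append, SimpleGraph.Walk.length_cons,
        SimpleGraph.Walk.length_reverse, hp, hq]; omega⟩
  · have h4 : w.length ≤ 4 := ht rfl
    exact ⟨p.append q.reverse, by
      rw [SimpleGraph.Walk.length_append, SimpleGraph.Walk.length_reverse, hp, hq]; omega⟩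

/-- the ball of radius five is an induced subgraph -/
theorem ball_adj {H : SimpleGraph Address} (hH : Fam H) {t t' : Address} (ht : InBall t)
    (ht' : InBall t') : H.Adj t t' ↔ (TreeAdj t t' ∨ TreeAdj t' t) := by
  classical
  haveI := finite_address
  haveI : Fintype Address := Fintype.ofFinite _
  constructor
  · intro h
    have hle : TG ≤ H := by
      intro a b hab
      rcases ((SimpleGraph.fromRel_adj _ _ _).1 hab).2 with h | h
      · exact hH.1 _ _ h
      · exact (hH.1 _ _ h).symm
    obtain ⟨p, hp⟩ := ball_walk ht ht'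
    have hp2 := p.length_bypass_le
    have e := Ord.uniq hH.2 ((p.bypass_isPath).mapLe hle) (Ord.edge_path h) (by
      rw [SimpleGraph.Walk.length_mapLe]
      simp only [SimpleGraph.Walk.length_cons, SimpleGraph.Walk.length_nil]
      omega)
    have e2 := congrArg SimpleGraph.Walk.length e
    rw [SimpleGraph.Walk.length_mapLe] at e2
    simp only [SimpleGraph.Walk.length_cons, SimpleGraph.Walk.length_nil] at e2
    have e3 := SimpleGraph.Walk.adj_of_length_eq_one e2
    exact ((SimpleGraph.fromRel_adj _ _ _).1 e3).2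
  · rintro (h | h)
    · exact hH.1 _ _ h
    · exact (hH.1 _ _ h).symm

end Pool.Agent.K3h83.FI
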