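import Pool.Agent.H173FL.Tree

set_option autoImplicit false
set_option linter.unusedSectionVars false
set_option linter.unusedVariables false

/-!
# Graphs without an induced minor of girth twelve which is spanned by a large binary tree
-/

namespace Pool.Agent.K3h83.FI

open Finset Pool.Agent.TH676.Z Pool.Agent.Y335.FL Pool.Agent.Y358.IN Pool.Agent.H173FL

/-- the 126 addresses: a side and a word with at most five letters -/
abbrev Address := {t : Bool × List Bool // t.2.length ≤ 5}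

/-- the pairs of adjacent vertices of the tree: the roots of the two binary trees are adjacent, and
`(b, w)` is adjacent to `(b, false :: w)` and `(b, true :: w)` if `w` has less than five letters -/
def TreeAdj (t t' : Address) : Prop :=
  (t.1 = (false, []) ∧ t'.1 = (true, [])) ∨ ∃ b c w, t.1 = (b, w) ∧ t'.1 = (b, c :: w)

/-- `H` has girth at least twelve and the tree as a spanning subgraph -/
def Fam (H : SimpleGraph Address) : Prop :=
  (∀ t t', TreeAdj t t' → H.Adj t t') ∧ ∀ (t : Address) (c : H.Walk t t), c.IsCycle → 12 ≤ c.length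

/-- the edge `e` joins the classes `t` and `t'` -/
def Jo {V E : Type} (src dst : E → V) (β : V → Option Address) (t t' : Address) (e : E) : Prop :=
  (β (src e) = some t ∧ β (dst e) = some t') ∨ (β (dst e) = some t ∧ β (src e) = some t')

/-- `H` is an induced minor -/
def IndMin {V E : Type} (H : SimpleGraph Address) (src dst : E → V) : Prop :=
  ∃ β : V → Option Address, (∀ t, (∃ v, β v = some t) ∧ ∀ X : V → Prop,
      (∃ v, X v ∧ β v = some t) → (∃ v, ¬ X v ∧ β v = some t) →
      ∃ e, Jo src dst β t t e ∧ ¬ (X (src e) ↔ X (dst e))) ∧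
    ∀ t t', t ≠ t' → (H.Adj t t' ↔ ∃ e, Jo src dst β t t' e)

/-- every vertex of the tree has a neighbour -/
theorem exists_treeAdj (t : Address) : ∃ t', TreeAdj t t' ∨ TreeAdj t' t := by
  obtain ⟨⟨b, w⟩, hw⟩ := t
  cases w with
  | nil =>
    refine ⟨⟨(b, [false]), by simp⟩, Or.inl (Or.inr ⟨b, false, [], rfl, rfl⟩)⟩
  | cons c w =>
    refine ⟨⟨(b, w), ?_⟩, Or.inr (Or.inr ⟨b, c, w, rfl, rfl⟩)⟩
    simp only [List.length_cons] at hw ⊢
    omega

section cls

variable {V E : Type} [Fintype V] [DecidableEq V] [Fintype E] [DecidableEq E]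

theorem indMin_ctr {H : SimpleGraph Address} (hH : Fam H) (src dst : E → V) (e : E)
    (h : IndMin H (ctr (src e) (dst e) ∘ src) (ctr (src e) (dst e) ∘ dst)) :
    IndMin H src dst := by
  obtain ⟨β, h1, h2⟩ := h
  set φ := ctr (src e) (dst e) with hφ
  have hφb : φ (dst e) = src e := by simp [hφ, ctr]
  have hφa : φ (src e) = src e := by
    simp only [hφ, ctr]
    split_ifs <;> rfl
  have hφx : ∀ x, x ≠ dst e → φ x = x := by
    intro x hx
    simp [hφ, ctr, hx]
  refine ⟨β ∘ φ, fun t => ⟨?_, ?_⟩, h2⟩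
  · obtain ⟨t', ht'⟩ := exists_treeAdj t
    have h3 : H.Adj t t' := by
      rcases ht' with h | h
      · exact hH.1 _ _ h
      · exact (hH.1 _ _ h).symm
    obtain ⟨e', he'⟩ := (h2 t t' h3.ne).1 h3
    rcases he' with ⟨a, _⟩ | ⟨a, _⟩
    · exact ⟨src e', a⟩
    · exact ⟨dst e', a⟩
  · intro X hv hv'
    obtain ⟨-, h1⟩ := h1 t
    obtain ⟨v, hvX, hvt⟩ := hv
    obtain ⟨v', hvX', hvt'⟩ := hv'
    simp only [Function.comp] at hvt hvt' ⊢
    by_cases ha : β (src e) = some t
    · by_cases hX : X (src e) ↔ X (dst e)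
      · have hXφ : ∀ x, X (φ x) ↔ X x := by
          intro x
          by_cases hx : x = dst e
          · rw [hx, hφb, hX]
          · rw [hφx x hx]
        obtain ⟨e', a1, a3⟩ := h1 X ⟨φ v, (hXφ v).mpr hvX, hvt⟩
          ⟨φ v', fun h => hvX' ((hXφ v').mp h), hvt'⟩
        refine ⟨e', a1, fun h => a3 ?_⟩
        simp only [Function.comp]
        rw [hXφ, hXφ]
        exact h
      · exact ⟨e, Or.inl ⟨by show β (φ (src e)) = _; rw [hφa]; exact ha,
          by show β (φ (dst e)) = _; rw [hφb]; exact ha⟩, hX⟩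
    · have hne : ∀ x, β (φ x) = some t → φ x = x := by
        intro x hx
        refine hφx x fun h => ha ?_
        rw [h, hφb] at hx
        exact hx
      obtain ⟨e', a1, a3⟩ := h1 X ⟨v, hvX, by rw [hne v hvt] at hvt; exact hvt⟩
        ⟨v', hvX', by rw [hne v' hvt'] at hvt'; exact hvt'⟩
      simp only [Function.comp] at a3
      refine ⟨e', a1, fun h => a3 ?_⟩
      rcases a1 with ⟨p, q⟩ | ⟨p, q⟩
      · rw [hne _ p, hne _ q]
        exact h
      · rw [hne _ p, hne _ q]
        exact h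

theorem ccI : CC (V := V) (E := E) (fun src dst => ∀ H, Fam H → ¬ IndMin H src dst) :=
  fun src dst e h _ H hH h' => h H hH (indMin_ctr hH src dst e h')

end cls

/-- **Main step.** -/
theorem flow_of_no_indMin (hc : St_contract) {V E : Type} [Fintype V] [DecidableEq V]
    [Fintype E] [DecidableEq E] (src dst : E → V) (hcl : ∀ H, Fam H → ¬ IndMin H src dst)
    (hbr : Br src dst ∅ ∅) : FlowOn src dst ∅ ∅ := by
  classical
  by_contra hn
  obtain ⟨s, d, hS, hM⟩ := exists_minC ccI src dst hcl hbr hn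
  have h3 := threeC hc hM
  have hgi := girthC hc hM
  by_cases hl : ∀ e, s e = d e
  · exact hM.nf (flow_of_loops hl)
  push Not at hl
  obtain ⟨e, he⟩ := hl
  let G : SimpleGraph V :=
    { Adj := Adj s d
      symm := ⟨fun a b h => GiAux.adj_symm h⟩
      loopless := ⟨fun a h => h.1 rfl⟩ }
  have hG : ∀ a b, G.Adj a b ↔ Adj s d a b := fun a b => Iff.rfl
  have h12 : ∀ (w : V) (c : G.Walk w w), c.IsCycle → 12 ≤ c.length :=
    fun w c hc => Ord.cycle_len hgi G hG c hc
  have h3' : ∀ x y, G.Adj x y → ∃ a b c, G.Adj x a ∧ G.Adj x b ∧ G.Adj x c ∧ a ≠ b ∧ a ≠ c ∧ b ≠ c :=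
    fun x y h => h3 x y h
  have hxy : G.Adj (s e) (d e) := ⟨he, e, Or.inl ⟨rfl, rfl⟩⟩
  obtain ⟨N, hN⟩ : ∃ N : V → V → V × V, ∀ v pr : V, (∃ z, G.Adj v z) →
      G.Adj v (N v pr).1 ∧ G.Adj v (N v pr).2 ∧
      (N v pr).1 ≠ (N v pr).2 ∧ (N v pr).1 ≠ pr ∧ (N v pr).2 ≠ pr := by
    have : ∀ v pr : V, ∃ q : V × V, (∃ z, G.Adj v z) → G.Adj v q.1 ∧ G.Adj v q.2 ∧
        q.1 ≠ q.2 ∧ q.1 ≠ pr ∧ q.2 ≠ pr := by
      intro v pr
      by_cases hz : ∃ z, G.Adj v z
      · obtain ⟨z, hz⟩ := hz
        obtain ⟨a, b, h⟩ := two_more (pr := pr) (h3' v z hz)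
        exact ⟨(a, b), fun _ => h⟩
      · exact ⟨(v, v), fun h => absurd h hz⟩
    choose N hN using this
    exact ⟨N, hN⟩
  obtain ⟨x, hx⟩ : ∃ x, x = s e := ⟨_, rfl⟩
  obtain ⟨y, hy⟩ : ∃ y, y = d e := ⟨_, rfl⟩
  rw [← hx, ← hy] at hxy
  let em : Bool × List Bool → V := fun t => if t.1 then (addr N y x t.2).1 else (addr N x y t.2).1
  have hinj0 : ∀ t t' : Bool × List Bool, t.2.length ≤ 5 → t'.2.length ≤ 5 → em t = em t' →
      t = t' := by
    rintro ⟨b, w⟩ ⟨b', w'⟩ h1 h2 h
    cases b <;> cases b' <;> simp only [em, if_true, if_false, Bool.false_eq_true] at h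
    · rw [addr_inj h12 N hN hxy w w' h1 h2 h]
    · exact absurd h (addr_ne h12 N hN hxy w w' h1 h2)
    · exact absurd h.symm (addr_ne h12 N hN hxy w' w h2 h1)
    · rw [addr_inj h12 N hN hxy.symm w w' h1 h2 h]
  have hadj0 : ∀ (b c : Bool) (w : List Bool), w.length ≤ 5 → G.Adj (em (b, w)) (em (b, c :: w)) := by
    intro b c w hw
    cases b
    · obtain ⟨p, -⟩ := addr_path h12 N hN hxy w hw
      obtain ⟨n1, n2, -⟩ := hN (addr N x y w).1 (addr N x y w).2 (Ord.nbr hxy p)
      cases c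
      · exact n2
      · exact n1
    · obtain ⟨p, -⟩ := addr_path h12 N hN hxy.symm w hw
      obtain ⟨n1, n2, -⟩ := hN (addr N y x w).1 (addr N y x w).2 (Ord.nbr hxy.symm p)
      cases c
      · exact n2
      · exact n1
  let emb : Address → V := fun t => em t.1
  have hinj : Function.Injective emb := fun t t' h => Subtype.ext (hinj0 _ _ t.2 t'.2 h)
  let H : SimpleGraph Address := G.comap emb
  have hHadj : ∀ t t', H.Adj t t' ↔ G.Adj (emb t) (emb t') := fun t t' => Iff.rfl
  have hFam : Fam H := by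
    refine ⟨?_, ?_⟩
    · rintro t t' (⟨h1, h2⟩ | ⟨b, c, w, h1, h2⟩)
      · rw [hHadj]
        show G.Adj (em t.1) (em t'.1)
        rw [h1, h2]
        exact hxy
      · rw [hHadj]
        show G.Adj (em t.1) (em t'.1)
        rw [h1, h2]
        have h3 := t.2
        rw [h1] at h3
        exact hadj0 b c w h3
    · intro t c hcyc
      have h1 := (SimpleGraph.Walk.isCycle_map_iff_of_injective (p := c)
        (f := (SimpleGraph.Embedding.comap ⟨emb, hinj⟩ G).toHom) hinj).2 hcyc
      have h2 := h12 _ _ h1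
      rw [SimpleGraph.Walk.length_map] at h2
      exact h2
  let β : V → Option Address := fun v =>
    if h : ∃ t : Address, emb t = v then some (Classical.choose h) else none
  have hβ1 : ∀ t : Address, β (emb t) = some t := by
    intro t
    have h : ∃ t' : Address, emb t' = emb t := ⟨t, rfl⟩
    have h1 := Classical.choose_spec h
    simp only [β]
    rw [dif_pos h]
    congr 1
    exact hinj h1
  have hβ2 : ∀ v t, β v = some t → emb t = v := by
    intro v t h
    simp only [β] at h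
    by_cases h1 : ∃ t : Address, emb t = v
    · rw [dif_pos h1, Option.some_inj] at h
      rw [← h]
      exact Classical.choose_spec h1
    · rw [dif_neg h1] at h
      exact absurd h (by simp)
  refine hS H hFam ⟨β, fun t => ⟨⟨emb t, hβ1 t⟩, ?_⟩, ?_⟩
  · rintro X ⟨v, hvX, hvt⟩ ⟨v', hvX', hvt'⟩
    exfalso
    apply hvX'
    rw [← hβ2 v' t hvt', hβ2 v t hvt]
    exact hvX
  · intro t t' hne
    rw [hHadj]
    constructor
    · rintro ⟨-, e', he'⟩
      refine ⟨e', ?_⟩
      rcases he' with ⟨a, b⟩ | ⟨a, b⟩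
      · left
        rw [a, b]
        exact ⟨hβ1 t, hβ1 t'⟩
      · right
        rw [a, b]
        exact ⟨hβ1 t, hβ1 t'⟩
    · rintro ⟨e', he'⟩
      refine ⟨fun h => hne (hinj h), e', ?_⟩
      rcases he' with ⟨a, b⟩ | ⟨a, b⟩
      · exact Or.inl ⟨(hβ2 _ _ a).symm, (hβ2 _ _ b).symm⟩
      · exact Or.inr ⟨(hβ2 _ _ b).symm, (hβ2 _ _ a).symm⟩

end Pool.Agent.K3h83.FI
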